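import Mathlib

namespace Pool.Agent.Results.MP_34a2f2_co.IntervalIdeal

/-- Property (SD): every interval is self-dual. -/
def SD (L : Type*) [Lattice L] : Prop :=
  ∀ x y : L, x ≤ y → Nonempty (Set.Icc x y ≃o (Set.Icc x y)ᵒᵈ)

section
variable {L : Type*} [Lattice L]

/-- If `[b, y]` is self-dual and `b ≤ x ≤ y` then `[x, y]` is anti-isomorphic to some `[b, u]`,
`u ≤ y`. -/
theorem upper_anti_lower {b x y : L} (hbx : b ≤ x) (hxy : x ≤ y)
    (e : Set.Icc b y ≃o (Set.Icc b y)ᵒᵈ) :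
    ∃ u, b ≤ u ∧ u ≤ y ∧ Nonempty (Set.Icc x y ≃o (Set.Icc b u)ᵒᵈ) := by
  let X : Set.Icc b y := ⟨x, hbx, hxy⟩
  let U : Set.Icc b y := OrderDual.ofDual (e X)
  have heX : e X = OrderDual.toDual U := rfl
  refine ⟨(U : L), U.2.1, U.2.2, ⟨?_⟩⟩
  refine
    { toFun := fun z => OrderDual.toDual
        ⟨((OrderDual.ofDual (e ⟨(z : L), hbx.trans z.2.1, z.2.2⟩) : Set.Icc b y) : L), ?_, ?_⟩
      invFun := fun w =>
        ⟨((e.symm (OrderDual.toDual ⟨((OrderDual.ofDual w : Set.Icc b (U : L)) : L),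
            (OrderDual.ofDual w).2.1, (OrderDual.ofDual w).2.2.trans U.2.2⟩) :
              Set.Icc b y) : L), ?_, ?_⟩
      left_inv := ?_
      right_inv := ?_
      map_rel_iff' := ?_ }
  · exact (OrderDual.ofDual (e ⟨(z : L), hbx.trans z.2.1, z.2.2⟩)).2.1
  · have h : X ≤ ⟨(z : L), hbx.trans z.2.1, z.2.2⟩ := z.2.1
    have h2 := e.monotone h
    exact h2
  · have h : OrderDual.toDual U ≤ OrderDual.toDual
        (⟨((OrderDual.ofDual w : Set.Icc b (U : L)) : L),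
            (OrderDual.ofDual w).2.1, (OrderDual.ofDual w).2.2.trans U.2.2⟩ : Set.Icc b y) := by
      rw [OrderDual.toDual_le_toDual]
      exact (OrderDual.ofDual w).2.2
    have h2 := e.symm.monotone h
    rw [← heX, OrderIso.symm_apply_apply] at h2
    exact h2
  · exact (e.symm _).2.2
  · intro z
    apply Subtype.ext
    simp
  · intro w
    apply OrderDual.ofDual.injective
    apply Subtype.ext
    have h := e.apply_symm_apply (OrderDual.toDual
      (⟨((OrderDual.ofDual w : Set.Icc b (U : L)) : L),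
            (OrderDual.ofDual w).2.1, (OrderDual.ofDual w).2.2.trans U.2.2⟩ : Set.Icc b y))
    exact congrArg (fun s => ((OrderDual.ofDual s : Set.Icc b y) : L)) h
  · intro z1 z2
    change ((OrderDual.ofDual (e ⟨(z2 : L), hbx.trans z2.2.1, z2.2.2⟩) : Set.Icc b y) : L) ≤
      ((OrderDual.ofDual (e ⟨(z1 : L), hbx.trans z1.2.1, z1.2.2⟩) : Set.Icc b y) : L) ↔ _
    have h := e.le_iff_le (x := (⟨(z1 : L), hbx.trans z1.2.1, z1.2.2⟩ : Set.Icc b y))
      (y := ⟨(z2 : L), hbx.trans z2.2.1, z2.2.2⟩)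
    exact h

end

theorem result (L : Type*) [Lattice L] (hSD : SD L) (b x y : L) (hbx : b ≤ x) (hxy : x ≤ y) :
    ∃ u, b ≤ u ∧ u ≤ y ∧ Nonempty (Set.Icc x y ≃o Set.Icc b u) := by
  obtain ⟨e⟩ := hSD b y (hbx.trans hxy)
  obtain ⟨u, hbu, huy, ⟨f⟩⟩ := upper_anti_lower hbx hxy e
  obtain ⟨g⟩ := hSD b u hbu
  exact ⟨u, hbu, huy, ⟨f.trans g.symm⟩⟩

end Pool.Agent.Results.MP_34a2f2_co.IntervalIdeal
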